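import Pool.Agent.H98.EX.PTargets
import Pool.Agent.H95.Cop.Strategy

/-!
# Row (PCO): the linear part of the neutral stretches
-/

set_option autoImplicit false

open MeasureTheory ProbabilityTheory Filter Topology
open scoped ENNReal
open Pool.Agent.H95 Pool.Agent.H95.Cop
open Pool.Agent.H96.Cop (pk ex)
open Pool.Agent.H99.CE (PF PF_zero PF_succ BX w0 wa wb)
open Pool.Agent.H98.EX

namespace Pool.Agent.H12.EX.PCO

/-- exponential weight -/
noncomputable def eh (t : ℝ) : ℝ≥0∞ := ENNReal.ofReal (Real.exp t)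

lemma eh_add (s t : ℝ) : eh (s + t) = eh s * eh t := by
  unfold eh
  rw [Real.exp_add, ENNReal.ofReal_mul (Real.exp_pos _).le]

lemma cosh_eq (t : ℝ) : (2 : ℝ≥0∞)⁻¹ + 2⁻¹ * ENNReal.ofReal (Real.exp t) =
    ENNReal.ofReal (Real.exp (t / 2)) * ENNReal.ofReal (Real.cosh (t / 2)) := by
  have h2 : (2 : ℝ≥0∞)⁻¹ = ENNReal.ofReal (1 / 2) := by
    rw [one_div, ENNReal.ofReal_inv_of_pos (by norm_num)]
    norm_num
  rw [h2, ← ENNReal.ofReal_mul (by norm_num), ← ENNReal.ofReal_add (by norm_num) (by positivity),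
    ← ENNReal.ofReal_mul (Real.exp_pos _).le]
  congr 1
  rw [Real.cosh_eq]
  have h3 : Real.exp (t / 2) * Real.exp (t / 2) = Real.exp t := by
    rw [← Real.exp_add]; congr 1; ring
  have h4 : Real.exp (t / 2) * Real.exp (-(t / 2)) = 1 := by
    rw [← Real.exp_add]; simp
  calc (1 : ℝ) / 2 + 1 / 2 * Real.exp t = (Real.exp (t / 2) * Real.exp (t / 2) +
        Real.exp (t / 2) * Real.exp (-(t / 2))) / 2 := by rw [h3, h4]; ring
    _ = _ := by ring

lemma w0_eq (K : PMF ℕ) (k n : ℕ) (x : ℕ → ℝ) :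
    w0 K k k n x = eh (H x 0 n / 2) * wc K k n x := by
  unfold w0 wc wa wb eh ex
  by_cases h : n ≤ k
  · rw [if_pos h, if_pos h, if_pos h, mul_left_comm, ← cosh_eq, mul_add, mul_assoc]
  · rw [if_neg h, if_neg h, if_neg h, add_zero, mul_zero]

lemma PF_eq (K : PMF ℕ) (k : ℕ) : ∀ (s : ℕ) (x : ℕ → ℝ),
    PF (w0 K k k) s x = eh (H x 0 s / 2) * PF (wc K k) s x := by
  intro s
  induction s using Nat.strong_induction_on with
  | _ s ih =>
    intro x
    rcases s with _ | s
    · rw [PF_zero, PF_zero, H_self]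
      simp [eh]
    · rw [PF_succ, PF_succ, Finset.mul_sum]
      refine Finset.sum_congr rfl fun j hj => ?_
      have hj' := Finset.mem_range.mp hj
      rw [w0_eq, ih (s - j) (by omega), H_shift]
      have h1 : H x 0 (s + 1) / 2 = H x 0 (j + 1) / 2 + H x (0 + (j + 1)) (s - j + (j + 1)) / 2 := by
        have h2 : s - j + (j + 1) = s + 1 := by omega
        rw [h2, zero_add, ← H_add x (Nat.zero_le (j + 1)) (by omega : j + 1 ≤ s + 1)]
        ring
      rw [h1, eh_add]
      ring

theorem pf_PCO : T_PCO := by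
  intro K k
  refine ⟨fun s x => PF_eq K k s x, fun d x => ?_⟩
  unfold BX NC
  rw [Finset.mul_sum]
  refine Finset.sum_congr rfl fun e he => ?_
  rw [Finset.mul_sum]
  refine Finset.sum_congr rfl fun r hr => ?_
  have hr' := Finset.mem_range.mp hr
  by_cases h : e ≤ d * k + r
  · rw [if_pos h, if_pos h, PF_eq, H_shift]
    have h1 : d * k + r - e + e = d * k + r := by omega
    rw [h1, zero_add]
    unfold be
    change eh _ * _ = eh _ * (eh _ * _ * eh _)
    have h2 : H x e (d * k + r) / 2 = H x 0 ((d + 1) * k) / 2 + -(H x 0 e / 2) +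
        -(H x (d * k + r) ((d + 1) * k) / 2) := by
      have h3 := H_add x (Nat.zero_le e) h
      have h5 : (d + 1) * k = d * k + k := by ring
      have h4 := H_add x (Nat.zero_le (d * k + r)) (by omega : d * k + r ≤ (d + 1) * k)
      rw [← h4, ← h3]
      ring
    rw [h2, eh_add, eh_add]
    ring
  · rw [if_neg h, if_neg h, mul_zero]

end Pool.Agent.H12.EX.PCO
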