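import Pool.Agent.H98.EX.BTargets
import Pool.Agent.H35.SLN.MOQ

/-!
# Row PLX of exa_modules (MP_65efe8_pr): the law of the charges on the scale of the cells
-/

set_option autoImplicit false

open MeasureTheory ProbabilityTheory Filter Topology
open Pool.Agent.H96.Cop (chargeLaw)
open Pool.Agent.H98.EX
open Pool.Agent.H35.SLN

namespace Pool.Agent.H12.EX.PLX

/-- the exponents -/
theorem aux (ϑ U C1 lam L m u : ℝ) (hU : 0 < U) (hC10 : 0 ≤ C1) (hlam : 0 < lam)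
    (hll : lam ^ 2 ≤ lam) (hm : 0 ≤ m) (hm2 : m ≤ 2) (hu : |u| ≤ U) (hL0 : 0 ≤ L)
    (hL1 : ϑ ≤ L * lam ^ 2) (hL2 : L * lam ^ 2 ≤ ϑ + lam ^ 2) (hL3 : L * lam ^ 2 ≤ ϑ + 1) :
    |L * (-(2 * u * m * lam ^ 2) + (-2 * lam * u) ^ 2 / 2) - ϑ * (2 * u ^ 2 - 2 * u * m)| ≤
      (2 * U ^ 2 + 4 * U) * lam ∧
    L * (C1 * |-2 * lam * u| ^ 3) ≤ 8 * C1 * U ^ 3 * (ϑ + 1) * lam := by
  have htabs : |-2 * lam * u| = 2 * lam * |u| := by
    rw [abs_mul, abs_mul, abs_neg, abs_two, abs_of_pos hlam]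
  constructor
  · have e : L * (-(2 * u * m * lam ^ 2) + (-2 * lam * u) ^ 2 / 2) -
        ϑ * (2 * u ^ 2 - 2 * u * m) = (L * lam ^ 2 - ϑ) * (2 * u ^ 2 - 2 * u * m) := by ring
    rw [e, abs_mul, abs_of_nonneg (by linarith : 0 ≤ L * lam ^ 2 - ϑ)]
    have h11 : |2 * u ^ 2 - 2 * u * m| ≤ 2 * U ^ 2 + 4 * U := by
      have h1 : |u ^ 2| ≤ U ^ 2 := by
        rw [abs_pow]
        exact pow_le_pow_left₀ (abs_nonneg _) hu 2
      have h2 : |u * m| ≤ U * 2 := by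
        rw [abs_mul, abs_of_nonneg hm]
        exact mul_le_mul hu hm2 hm hU.le
      have h1' := abs_le.1 h1
      have h2' := abs_le.1 h2
      rw [abs_le]
      constructor <;> linarith [h1'.1, h1'.2, h2'.1, h2'.2]
    calc (L * lam ^ 2 - ϑ) * |2 * u ^ 2 - 2 * u * m| ≤ lam ^ 2 * (2 * U ^ 2 + 4 * U) :=
          mul_le_mul (by linarith) h11 (abs_nonneg _) (by positivity)
      _ ≤ lam * (2 * U ^ 2 + 4 * U) := mul_le_mul_of_nonneg_right hll (by positivity)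
      _ = (2 * U ^ 2 + 4 * U) * lam := by ring
  · have ht3 : |-2 * lam * u| ^ 3 ≤ (2 * lam * U) ^ 3 := by
      rw [htabs]
      exact pow_le_pow_left₀ (by positivity) (mul_le_mul_of_nonneg_left hu (by positivity)) 3
    calc L * (C1 * |-2 * lam * u| ^ 3) ≤ L * (C1 * (2 * lam * U) ^ 3) :=
          mul_le_mul_of_nonneg_left (mul_le_mul_of_nonneg_left ht3 hC10) hL0
      _ = 8 * C1 * U ^ 3 * lam * (L * lam ^ 2) := by ring
      _ ≤ 8 * C1 * U ^ 3 * lam * (ϑ + 1) := mul_le_mul_of_nonneg_left hL3 (by positivity)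
      _ = 8 * C1 * U ^ 3 * (ϑ + 1) * lam := by ring

theorem pf_PLX : T_PLX := by
  intro μ hμ hexp h1 h2 ϑ U hϑ hU
  obtain ⟨A, B, hA, hB, hb⟩ := moq_base μ hexp h1 h2
  have hC10 : 0 ≤ A + (1 / 2 + A) ^ 2 := by positivity
  set C1 : ℝ := A + (1 / 2 + A) ^ 2 with hC1
  refine ⟨(2 * U ^ 2 + 4 * U) + 8 * C1 * U ^ 3 * (ϑ + 1) + 1, min 1 (1 / (2 * U)),
    by positivity, by positivity, ?_⟩
  intro lam ε hlam hlam2 hε0 hε1
  have hlam1 : lam ≤ 1 := (hlam2.trans_le (min_le_left _ _)).le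
  have hlamU : lam * (2 * U) ≤ 1 := by
    have h := (hlam2.trans_le (min_le_right _ _)).le
    rwa [le_div_iff₀ (by positivity)] at h
  have hl2 : 0 < lam ^ 2 := by positivity
  have hll : lam ^ 2 ≤ lam := by
    calc lam ^ 2 = lam * lam := by ring
      _ ≤ lam * 1 := mul_le_mul_of_nonneg_left hlam1 hlam.le
      _ = lam := by ring
  set L : ℝ := ((⌈ϑ / lam ^ 2⌉₊ : ℕ) : ℝ) with hL
  have hL0 : 0 ≤ L := by positivity
  have hL1 : ϑ ≤ L * lam ^ 2 := by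
    have h := Nat.le_ceil (ϑ / lam ^ 2)
    rwa [div_le_iff₀ hl2] at h
  have hL2 : L * lam ^ 2 ≤ ϑ + lam ^ 2 := by
    have h := Nat.ceil_lt_add_one (show 0 ≤ ϑ / lam ^ 2 by positivity)
    have h3 : L * lam ^ 2 ≤ (ϑ / lam ^ 2 + 1) * lam ^ 2 :=
      mul_le_mul_of_nonneg_right h.le hl2.le
    have h4 : (ϑ / lam ^ 2 + 1) * lam ^ 2 = ϑ + lam ^ 2 := by field_simp
    linarith
  have hL3 : L * lam ^ 2 ≤ ϑ + 1 := by linarith
  have hm : 0 ≤ 3 / 4 + ε := by linarith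
  have hm2 : 3 / 4 + ε ≤ 2 := by linarith
  have hpw : ∀ x : ℝ, Real.exp x ^ ⌈ϑ / lam ^ 2⌉₊ = Real.exp (L * x) := by
    intro x; rw [← Real.exp_nat_mul]
  have key : ∀ u : ℝ, |u| ≤ U → |-2 * lam * u| ≤ 1 := by
    intro u hu
    rw [abs_mul, abs_mul, abs_neg, abs_two, abs_of_pos hlam]
    calc 2 * lam * |u| ≤ 2 * lam * U := mul_le_mul_of_nonneg_left hu (by linarith)
      _ ≤ 1 := by linarith
  refine ⟨inferInstance, ?_, ?_, ?_⟩
  · intro t
    unfold chargeLaw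
    have hT : Continuous (fun z : ℝ => -2 * lam * (z + (3 / 4 + ε) * lam)) := by fun_prop
    rw [integrable_map_measure (by fun_prop) hT.aemeasurable]
    have h5 := (hexp (-2 * lam * t)).const_mul (Real.exp (-(2 * t * (3 / 4 + ε) * lam ^ 2)))
    refine h5.congr (Filter.Eventually.of_forall fun z => ?_)
    simp only [Function.comp]
    rw [← Real.exp_add]
    ring_nf
  · intro u hu
    obtain ⟨g1, g2, -⟩ := hb (-2 * lam * u) (key u hu)
    obtain ⟨hMlo, -⟩ := moq_n1 A _ _ hA (key u hu) g1 g2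
    obtain ⟨p1, p2⟩ := aux ϑ U C1 lam L (3 / 4 + ε) u hU hC10 hlam hll hm hm2 hu hL0 hL1
      hL2 hL3
    unfold chargeLaw
    rw [moq_Mo]
    rw [← hC1] at hMlo
    have p1' := abs_le.1 p1
    have he0 : 0 < Real.exp (-(2 * u * (3 / 4 + ε) * lam ^ 2)) := Real.exp_pos _
    calc Real.exp (ϑ * (2 * u ^ 2 - 2 * u * (3 / 4 + ε)) -
            ((2 * U ^ 2 + 4 * U) + 8 * C1 * U ^ 3 * (ϑ + 1) + 1) * lam)
          ≤ Real.exp (L * (-(2 * u * (3 / 4 + ε) * lam ^ 2) +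
              ((-2 * lam * u) ^ 2 / 2 - C1 * |-2 * lam * u| ^ 3))) := by
            refine Real.exp_le_exp.2 ?_
            have e : L * (-(2 * u * (3 / 4 + ε) * lam ^ 2) +
                ((-2 * lam * u) ^ 2 / 2 - C1 * |-2 * lam * u| ^ 3)) =
                L * (-(2 * u * (3 / 4 + ε) * lam ^ 2) + (-2 * lam * u) ^ 2 / 2) -
                  L * (C1 * |-2 * lam * u| ^ 3) := by ring
            rw [e]
            linarith [p1'.1]
        _ = (Real.exp (-(2 * u * (3 / 4 + ε) * lam ^ 2)) *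
              Real.exp ((-2 * lam * u) ^ 2 / 2 - C1 * |-2 * lam * u| ^ 3)) ^
              ⌈ϑ / lam ^ 2⌉₊ := by rw [← Real.exp_add, hpw]
        _ ≤ _ := pow_le_pow_left₀ (by positivity) (mul_le_mul_of_nonneg_left hMlo he0.le) _
  · intro u hu
    obtain ⟨g1, g2, -⟩ := hb (-2 * lam * u) (key u hu)
    obtain ⟨-, hMup⟩ := moq_n1 A _ _ hA (key u hu) g1 g2
    obtain ⟨p1, p2⟩ := aux ϑ U C1 lam L (3 / 4 + ε) u hU hC10 hlam hll hm hm2 hu hL0 hL1
      hL2 hL3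
    unfold chargeLaw
    rw [moq_Mo]
    rw [← hC1] at hMup
    have p1' := abs_le.1 p1
    have he0 : 0 < Real.exp (-(2 * u * (3 / 4 + ε) * lam ^ 2)) := Real.exp_pos _
    refine (pow_le_pow_left₀ (mul_nonneg he0.le (by linarith))
              (mul_le_mul_of_nonneg_left hMup he0.le) _).trans ?_
    rw [← Real.exp_add, hpw]
    refine Real.exp_le_exp.2 ?_
    have e : L * (-(2 * u * (3 / 4 + ε) * lam ^ 2) +
        ((-2 * lam * u) ^ 2 / 2 + C1 * |-2 * lam * u| ^ 3)) =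
        L * (-(2 * u * (3 / 4 + ε) * lam ^ 2) + (-2 * lam * u) ^ 2 / 2) +
          L * (C1 * |-2 * lam * u| ^ 3) := by ring
    rw [e]
    linarith [p1'.2]

end Pool.Agent.H12.EX.PLX
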