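import Pool.Agent.H98.EX.LTargets
import Pool.Agent.H85.SLN.YGD

/-!
# Row YGX of exa_modules (MP_65efe8_pr): the exponent of the paths is not much smaller than the
typical one

Adapted from the row YGD of helper85.
-/

set_option autoImplicit false

open MeasureTheory ProbabilityTheory Filter Topology
open scoped ENNReal
open Pool.Agent.H95 Pool.Agent.H95.Cop
open Pool.Agent.H55.CG (pz VV Mo)
open Pool.Agent.H98.SLN
open Pool.Agent.H98.EX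
open Pool.Agent.H85.SLN (yg_meas_H yg_abs)

namespace Pool.Agent.H12.EX.YGX

theorem cX_eq (k : ℕ) (ϑ : ℝ) (x : ℕ → ℝ) (a b : ℕ) (h : a ≤ b) :
    H (yk k ϑ x) a b = H x (a * k) (b * k) / 2 + ((b : ℝ) - a) * ϑ / 2 := by
  induction b, h using Nat.le_induction with
  | base => simp [H]
  | succ b hb ih =>
    have e0 : H (yk k ϑ x) a (b + 1) = H (yk k ϑ x) a b + H (yk k ϑ x) b (b + 1) :=
      (H_add (yk k ϑ x) hb (Nat.le_succ b)).symm
    have e1 : H (yk k ϑ x) b (b + 1) = yk k ϑ x b := by simp [H]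
    have e2 : H x (a * k) ((b + 1) * k) = H x (a * k) (b * k) + H x (b * k) ((b + 1) * k) :=
      (H_add x (Nat.mul_le_mul_right k hb) (Nat.mul_le_mul_right k (Nat.le_succ b))).symm
    rw [e0, ih, e1, e2]
    unfold yk
    push_cast
    ring

/-- sums over at most `ℓ` sites -/
theorem yx_H (hFOU : T_FOU) (ν : Measure ℝ) [IsProbabilityMeasure ν]
    (h4 : Integrable (fun z => z ^ 4) ν) (l ϑ w : ℝ) (hw : 0 < w) (hw2 : w ^ 2 = ϑ)
    (hϑ1 : ϑ ≤ 1) (u v : ℕ) (hl : ((v - u : ℕ) : ℝ) ≤ l)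
    (hm1 : l * |∫ z, z ∂ν| ≤ ϑ) (hm2 : l * (∫ z, z ^ 2 ∂ν) ≤ 5 * ϑ) :
    Integrable (fun x : ℕ → ℝ => |H x u v|) (iid ν) ∧
      ∫ x : ℕ → ℝ, |H x u v| ∂(iid ν) ≤ 3 * w := by
  obtain ⟨-, g2, -, g4, -⟩ := hFOU ν h4 (v - u)
  have hmp := measurePreserving_shift ν u
  have hϑ0 : 0 ≤ ϑ := by rw [← hw2]; positivity
  have e : ∀ x : ℕ → ℝ, H x u v = H (shift u x) 0 (v - u) := by
    intro x
    rw [H_shift]
    rcases Nat.le_total u v with h | h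
    · rw [zero_add, Nat.sub_add_cancel h]
    · rw [zero_add, Nat.sub_eq_zero_of_le h, zero_add]
      unfold H
      rw [Finset.Ico_eq_empty (by omega), Finset.Ico_eq_empty (by omega)]
  have hm2' : 0 ≤ ∫ z, z ^ 2 ∂ν := integral_nonneg fun z => sq_nonneg z
  have hk0 : (0 : ℝ) ≤ ((v - u : ℕ) : ℝ) := Nat.cast_nonneg _
  have hi : Integrable (fun x : ℕ → ℝ => H x u v ^ 2) (iid ν) := by
    have h := hmp.integrable_comp_of_integrable g2
    refine h.congr (Filter.Eventually.of_forall fun x => ?_)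
    simp only [Function.comp_apply]
    rw [e x]
  have he : ∫ x : ℕ → ℝ, H x u v ^ 2 ∂(iid ν) = ∫ x : ℕ → ℝ, H x 0 (v - u) ^ 2 ∂(iid ν) := by
    have h := integral_map (μ := iid ν) (φ := shift u) hmp.measurable.aemeasurable
      (f := fun x : ℕ → ℝ => H x 0 (v - u) ^ 2) (by
        rw [hmp.map_eq]
        exact g2.aestronglyMeasurable)
    rw [hmp.map_eq] at h
    rw [h]
    refine integral_congr_ae (Filter.Eventually.of_forall fun x => ?_)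
    simp only
    rw [e x]
  refine yg_abs ν (yg_meas_H u v) (by positivity) hi ?_
  rw [he]
  refine g4.trans ?_
  have a1 : ((v - u : ℕ) : ℝ) * (∫ z, z ^ 2 ∂ν) ≤ 5 * ϑ :=
    (mul_le_mul_of_nonneg_right hl hm2').trans hm2
  have a2 : ((v - u : ℕ) : ℝ) * |∫ z, z ∂ν| ≤ ϑ :=
    (mul_le_mul_of_nonneg_right hl (abs_nonneg _)).trans hm1
  have a3 : ((v - u : ℕ) : ℝ) ^ 2 * (∫ z, z ∂ν) ^ 2 ≤ ϑ := by
    have : ((v - u : ℕ) : ℝ) ^ 2 * (∫ z, z ∂ν) ^ 2 =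
        (((v - u : ℕ) : ℝ) * |∫ z, z ∂ν|) ^ 2 := by
      rw [mul_pow, sq_abs]
    rw [this]
    calc (((v - u : ℕ) : ℝ) * |∫ z, z ∂ν|) ^ 2 ≤ ϑ ^ 2 :=
          pow_le_pow_left₀ (by positivity) a2 2
      _ = ϑ * ϑ := by ring
      _ ≤ 1 * ϑ := mul_le_mul_of_nonneg_right hϑ1 hϑ0
      _ = ϑ := one_mul _
  have e5 : (3 * w) ^ 2 = 9 * ϑ := by rw [mul_pow, hw2]; norm_num
  rw [e5]
  linarith

/-- the constant of the fourth moments -/
theorem yx_B4 (ν : Measure ℝ) (q : ℕ) (l s ϑ τ : ℝ) (hl : 1 ≤ l) (hs0 : 0 ≤ s) (hs1 : s ≤ 1)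
    (hϑ0 : 0 ≤ ϑ) (hϑ1 : ϑ ≤ 1 / 2 ^ 12) (hq : (q : ℝ) ≤ s * l)
    (hm1 : l * |∫ z, z ∂ν| ≤ ϑ) (hm2 : l * (∫ z, z ^ 2 ∂ν) ≤ 5 * ϑ)
    (hm4 : l * (∫ z, z ^ 4 ∂ν) ≤ τ) :
    0 ≤ B4 ν q ∧ B4 ν q * l ≤ 128 * τ + s := by
  have p2 : 0 ≤ ∫ z, z ^ 2 ∂ν := integral_nonneg fun z => sq_nonneg z
  have p4 : 0 ≤ ∫ z, z ^ 4 ∂ν := integral_nonneg fun z => by positivity
  have hq0 : (0 : ℝ) ≤ q := Nat.cast_nonneg q
  unfold B4
  generalize (∫ z, z ∂ν) = m1 at *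
  generalize (∫ z, z ^ 2 ∂ν) = m2 at *
  generalize (∫ z, z ^ 4 ∂ν) = m4 at *
  generalize (q : ℝ) = Q at *
  have hl0 : 0 < l := by linarith
  refine ⟨by positivity, ?_⟩
  have hϑ2 : ϑ ^ 2 ≤ 1 / 2 ^ 24 := by
    calc ϑ ^ 2 ≤ (1 / 2 ^ 12) ^ 2 := pow_le_pow_left₀ hϑ0 hϑ1 2
      _ = 1 / 2 ^ 24 := by norm_num
  have b1' : 0 ≤ l * m2 := by positivity
  have b2 : (l * m2) ^ 2 ≤ 1 / 2 ^ 10 := by
    calc (l * m2) ^ 2 ≤ (5 * ϑ) ^ 2 := pow_le_pow_left₀ b1' hm2 2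
      _ = 25 * ϑ ^ 2 := by ring
      _ ≤ 25 * (1 / 2 ^ 24) := by gcongr
      _ ≤ 1 / 2 ^ 10 := by norm_num
  have b3 : (l * |m1|) ^ 4 ≤ 1 / 2 ^ 10 := by
    calc (l * |m1|) ^ 4 ≤ ϑ ^ 4 := pow_le_pow_left₀ (by positivity) hm1 4
      _ = ϑ ^ 2 * ϑ ^ 2 := by ring
      _ ≤ (1 / 2 ^ 24) * (1 / 2 ^ 24) := by gcongr
      _ ≤ 1 / 2 ^ 10 := by norm_num
  have b3' : (l * |m1|) ^ 4 = l ^ 4 * m1 ^ 4 := by
    rw [mul_pow, show |m1| ^ 4 = m1 ^ 4 by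
      rw [show |m1| ^ 4 = (|m1| ^ 2) ^ 2 by ring, sq_abs]
      ring]
  have c1 : 24 * Q * m2 ^ 2 * l ≤ 24 / 2 ^ 10 * s := by
    calc 24 * Q * m2 ^ 2 * l ≤ 24 * (s * l) * m2 ^ 2 * l := by gcongr
      _ = 24 * s * (l * m2) ^ 2 := by ring
      _ ≤ 24 * s * (1 / 2 ^ 10) := by gcongr
      _ = 24 / 2 ^ 10 * s := by ring
  have c2 : 8 * Q ^ 3 * m1 ^ 4 * l ≤ 8 / 2 ^ 10 * s := by
    have hs3 : s ^ 3 ≤ s := by
      calc s ^ 3 = s ^ 2 * s := by ring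
        _ ≤ 1 * s := mul_le_mul_of_nonneg_right (pow_le_one₀ hs0 hs1) hs0
        _ = s := one_mul s
    calc 8 * Q ^ 3 * m1 ^ 4 * l ≤ 8 * (s * l) ^ 3 * m1 ^ 4 * l := by
          have : 0 ≤ m1 ^ 4 := by positivity
          gcongr
      _ = 8 * s ^ 3 * (l ^ 4 * m1 ^ 4) := by ring
      _ = 8 * s ^ 3 * (l * |m1|) ^ 4 := by rw [b3']
      _ ≤ 8 * s * (1 / 2 ^ 10) := by gcongr
      _ = 8 / 2 ^ 10 * s := by ring
  calc (128 * m4 + 24 * Q * m2 ^ 2 + 8 * Q ^ 3 * m1 ^ 4) * l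
      = 128 * (l * m4) + 24 * Q * m2 ^ 2 * l + 8 * Q ^ 3 * m1 ^ 4 * l := by ring
    _ ≤ 128 * τ + 24 / 2 ^ 10 * s + 8 / 2 ^ 10 * s := by linarith
    _ ≤ 128 * τ + s := by linarith

theorem pf_YGX (hUQB : Pool.Agent.H98.SLN.T_UQB) (_hLCB : Pool.Agent.H98.SLN.T_LCB)
    (hVAR : Pool.Agent.H98.SLN.T_VAR) (hMSL : Pool.Agent.H98.SLN.T_MSL)
    (hFOU : Pool.Agent.H98.SLN.T_FOU) (hLCM : Pool.Agent.H98.SLN.T_LCM)
    (hMAS : Pool.Agent.H98.SLN.T_MAS) (hTLQ : Pool.Agent.H98.SLN.T_TLQ) : T_YGX := by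
  intro K α c δ ℓ q hR ν _ h4 ϑ τ hϑ0 hϑ1 hτ0 hm1 hm2 hm4 a b hab hL hε
  obtain ⟨hMM8, hMM⟩ := hMAS K α c δ ℓ q hR a b hab hL
  obtain ⟨hℓ1, hqℓ, -⟩ := hTLQ K α c δ ℓ q hR
  obtain ⟨hu1, hu2, hu3, hu4, -⟩ := hUQB K q
  set s := Real.sqrt δ with hs
  set L : ℝ := (b : ℝ) + 1 - a with hLdef
  -- the fourth root of `ϑ`
  set g : ℝ := ϑ ^ (1 / 4 : ℝ) with hg
  have hg0 : 0 < g := Real.rpow_pos_of_pos hϑ0 _
  have hg4 : g ^ 4 = ϑ := by
    rw [hg, ← Real.rpow_natCast, ← Real.rpow_mul hϑ0.le]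
    norm_num
  have hg1 : g ≤ 1 / 8 := by
    have h : g ^ 4 ≤ (1 / 8) ^ 4 := by
      rw [hg4]
      refine hϑ1.trans ?_
      norm_num
    exact le_of_pow_le_pow_left₀ (by norm_num) (by norm_num) h
  set w : ℝ := g ^ 2 with hw
  have hw0 : 0 < w := by positivity
  have hw2 : w ^ 2 = ϑ := by rw [hw, ← hg4]; ring
  have hgϑ : 3 * ϑ ≤ g := by
    rw [← hg4]
    have : g ^ 3 ≤ (1 / 8) ^ 3 := pow_le_pow_left₀ hg0.le hg1 3
    calc 3 * g ^ 4 = 3 * g ^ 3 * g := by ring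
      _ ≤ 3 * (1 / 8) ^ 3 * g := by gcongr
      _ ≤ g := by linarith
  have hL2 : 2 ≤ L := by
    have : ((a : ℝ) + 1) ≤ b := by exact_mod_cast hab
    rw [hLdef]
    linarith
  have hs0 : 0 ≤ s := Real.sqrt_nonneg _
  have hs1 : s ≤ 1 := by
    rw [hs, Real.sqrt_le_iff]
    refine ⟨by positivity, hR.δ1.trans (by norm_num)⟩
  have hτs : 0 ≤ τ + s := by linarith
  have hτ1 : τ + s ≤ ϑ / 64 := by
    have := mul_le_mul_of_nonneg_right hL2 hτs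
    linarith
  have hl1 : (1 : ℝ) ≤ ℓ := by exact_mod_cast hℓ1
  have hl0 : (0 : ℝ) < ℓ := by linarith
  have hϑ1' : ϑ ≤ 1 := hϑ1.trans (by norm_num)
  have hm2' : ℓ * (∫ z, z ^ 2 ∂ν) ≤ 5 * ϑ := by
    have := (abs_le.1 hm2).2
    linarith
  have hm2'' : 4 * ϑ - τ ≤ ℓ * (∫ z, z ^ 2 ∂ν) := by
    have := (abs_le.1 hm2).1
    linarith
  obtain ⟨hB0, hB1⟩ := yx_B4 ν q ℓ s ϑ τ hl1 hs0 hs1 hϑ0.le hϑ1 (by rw [hs]; exact hR.q3)
    hm1 hm2' hm4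
  set b0 : ℝ := (∫ z, z ^ 2 ∂ν) / 8 - B4 ν q / 192 with hb0
  have hlb0 : ϑ / 2 - (τ + s) ≤ ℓ * b0 := by
    have : ℓ * b0 = (ℓ * (∫ z, z ^ 2 ∂ν)) / 8 - (B4 ν q * ℓ) / 192 := by
      rw [hb0]
      ring
    rw [this]
    linarith
  -- the mean of the exponents
  have hmean : ∀ n : ℕ, (L - 2) * ℓ ≤ n →
      uq K q n * (L * ϑ / 2 - 3 * ϑ) ≤ mS K q ν n := by
    intro n hn
    have h1 := hMSL K q ν b0 (fun j hj hjq => (hLCM ν h4 q j hj hjq).2.2.1) n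
    have h2 : L * ϑ / 2 - 3 * ϑ ≤ n * b0 := by
      have hb0' : 0 ≤ ℓ * b0 := by linarith
      have hb0'' : 0 ≤ b0 := nonneg_of_mul_nonneg_right hb0' hl0
      have h3 : (L - 2) * ℓ * b0 ≤ n * b0 := mul_le_mul_of_nonneg_right hn hb0''
      have h4' : (L - 2) * (ϑ / 2 - (τ + s)) ≤ (L - 2) * (ℓ * b0) :=
        mul_le_mul_of_nonneg_left hlb0 (by linarith)
      have e1 : (L - 2) * (ϑ / 2 - (τ + s)) =
          L * ϑ / 2 - ϑ - L * (τ + s) + 2 * (τ + s) := by ring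
      have e2 : (L - 2) * (ℓ * b0) = (L - 2) * ℓ * b0 := by ring
      rw [e1, e2] at h4'
      linarith
    exact (mul_le_mul_of_nonneg_left h2 (hu1 n).1).trans h1
  -- the variance
  have hvar : ∀ n y : ℕ, (n : ℝ) ≤ L * ℓ → Integrable (fun x : ℕ → ℝ => |Sq K q x n y - mS K q ν n|)
      (iid ν) ∧ ∫ x : ℕ → ℝ, |Sq K q x n y - mS K q ν n| ∂(iid ν) ≤ uq K q n * w := by
    intro n y hn
    rcases (hu1 n).1.lt_or_eq with hpos | hzero
    · have hmeas : Measurable (fun x : ℕ → ℝ => Sq K q x n y - mS K q ν n) :=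
        (hu4 n y).1.sub_const _
      have hv := hVAR K q ν (B4 ν q / 64) (by positivity)
        (fun j hj hjq => ⟨(hLCM ν h4 q j hj hjq).1, (hLCM ν h4 q j hj hjq).2.1,
          (hLCM ν h4 q j hj hjq).2.2.2⟩) n y 0
      have hv' : ∫⁻ x : ℕ → ℝ, ENNReal.ofReal ((Sq K q x n y - mS K q ν n) ^ 2) ∂(iid ν) ≤
          ENNReal.ofReal ((uq K q n * w) ^ 2) := by
        have e : ∀ x : ℕ → ℝ, Sq K q x n y - mS K q ν n + 0 * uq K q n =
            Sq K q x n y - mS K q ν n := fun x => by ring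
        simp only [e] at hv
        refine hv.trans (ENNReal.ofReal_le_ofReal ?_)
        rw [mul_pow, hw2]
        apply mul_le_mul_of_nonneg_left _ (sq_nonneg _)
        have h1 : B4 ν q / 64 * n ≤ B4 ν q / 64 * (L * ℓ) :=
          mul_le_mul_of_nonneg_left hn (by positivity)
        have h2 : B4 ν q / 64 * (L * ℓ) = L * (B4 ν q * ℓ) / 64 := by ring
        have h3 : L * (B4 ν q * ℓ) ≤ L * (128 * τ + s) :=
          mul_le_mul_of_nonneg_left hB1 (by linarith)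
        have h5 : L * (128 * τ + s) ≤ 128 * (L * (τ + s)) := by
          have : 0 ≤ L * s := by positivity
          linarith
        linarith
      have hint : Integrable (fun x : ℕ → ℝ => (Sq K q x n y - mS K q ν n) ^ 2) (iid ν) := by
        refine ⟨(hmeas.pow_const 2).aestronglyMeasurable, ?_⟩
        rw [hasFiniteIntegral_iff_ofReal (Filter.Eventually.of_forall fun x => sq_nonneg _)]
        exact lt_of_le_of_lt hv' ENNReal.ofReal_lt_top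
      refine yg_abs ν hmeas (by positivity) hint ?_
      rw [integral_eq_lintegral_of_nonneg_ae (Filter.Eventually.of_forall fun x => sq_nonneg _)
        (hmeas.pow_const 2).aestronglyMeasurable]
      exact ENNReal.toReal_le_of_le_ofReal (by positivity) hv'
    · have h1 : ∀ x : ℕ → ℝ, Sq K q x n y - mS K q ν n = 0 := by
        intro x
        rw [hu2 n x y hzero.symm, hu3 ν n hzero.symm, sub_zero]
      simp only [h1, ← hzero]
      simp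
  -- the error
  set Y := Finset.Ico (a * ℓ) ((a + 1) * ℓ) with hY
  set Z := Finset.Ico (b * ℓ) ((b + 1) * ℓ) with hZ
  have hyz : ∀ y ∈ Y, ∀ z ∈ Z, a * ℓ ≤ y ∧ y ≤ z ∧ z ≤ (b + 1) * ℓ ∧
      (y - a * ℓ : ℕ) ≤ ℓ ∧ ((b + 1) * ℓ - z : ℕ) ≤ ℓ ∧
      (L - 2) * ℓ ≤ ((z - y : ℕ) : ℝ) ∧ ((z - y : ℕ) : ℝ) ≤ L * ℓ := by
    intro y hy z hz
    rw [hY, Finset.mem_Ico] at hy
    rw [hZ, Finset.mem_Ico] at hz
    have h1 : (a + 1) * ℓ ≤ b * ℓ := Nat.mul_le_mul_right ℓ hab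
    have h2 : y ≤ z := by omega
    have e1 : (a + 1) * ℓ = a * ℓ + ℓ := by ring
    have e2 : (b + 1) * ℓ = b * ℓ + ℓ := by ring
    refine ⟨hy.1, h2, hz.2.le, by omega, by omega, ?_, ?_⟩
    · rw [Nat.cast_sub h2]
      have g1 : ((y : ℝ)) ≤ (a + 1) * ℓ := by exact_mod_cast hy.2.le
      have g2 : ((b : ℝ)) * ℓ ≤ z := by exact_mod_cast hz.1
      rw [hLdef]
      linarith
    · rw [Nat.cast_sub h2]
      have g1 : ((a : ℝ)) * ℓ ≤ y := by exact_mod_cast hy.1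
      have g2 : (z : ℝ) ≤ (b + 1) * ℓ := by exact_mod_cast hz.2.le
      rw [hLdef]
      linarith
  set T : ℕ → ℕ → (ℕ → ℝ) → ℝ := fun y z x =>
    uq K q (z - y) / 2 * (|H x (a * ℓ) y| + |H x z ((b + 1) * ℓ)|) +
      |Sq K q x (z - y) y - mS K q ν (z - y)| with hT
  have hTi : ∀ y ∈ Y, ∀ z ∈ Z, Integrable (T y z) (iid ν) ∧
      ∫ x, T y z x ∂(iid ν) ≤ uq K q (z - y) * (4 * w) := by
    intro y hy z hz
    obtain ⟨h1, h2, h3, h5, h6, h7, h8⟩ := hyz y hy z hz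
    have i1 := yx_H hFOU ν h4 ℓ ϑ w hw0 hw2 hϑ1' (a * ℓ) y (by exact_mod_cast h5) hm1 hm2'
    have i2 := yx_H hFOU ν h4 ℓ ϑ w hw0 hw2 hϑ1' z ((b + 1) * ℓ) (by exact_mod_cast h6) hm1
      hm2'
    have i3 := hvar (z - y) y h8
    have hu := (hu1 (z - y)).1
    have j1 : Integrable (fun x : ℕ → ℝ => uq K q (z - y) / 2 *
        (|H x (a * ℓ) y| + |H x z ((b + 1) * ℓ)|)) (iid ν) := (i1.1.add i2.1).const_mul _
    refine ⟨j1.add i3.1, ?_⟩
    have e1 : ∫ x, T y z x ∂(iid ν) = uq K q (z - y) / 2 *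
        ((∫ x, |H x (a * ℓ) y| ∂(iid ν)) + ∫ x, |H x z ((b + 1) * ℓ)| ∂(iid ν)) +
        ∫ x, |Sq K q x (z - y) y - mS K q ν (z - y)| ∂(iid ν) := by
      rw [hT]
      simp only
      rw [integral_add j1 i3.1, integral_const_mul, integral_add i1.1 i2.1]
    rw [e1]
    have k1 := i1.2
    have k2 := i2.2
    have k3 := i3.2
    have k4 : uq K q (z - y) / 2 *
        ((∫ x, |H x (a * ℓ) y| ∂(iid ν)) + ∫ x, |H x z ((b + 1) * ℓ)| ∂(iid ν)) ≤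
        uq K q (z - y) / 2 * (6 * w) := by
      apply mul_le_mul_of_nonneg_left _ (by linarith)
      linarith
    linarith
  set Er : (ℕ → ℝ) → ℝ := fun x => 1 / MM K ℓ q a b * ∑ y ∈ Y, ∑ z ∈ Z, T y z x with hEr
  have hT0 : ∀ y z x, 0 ≤ T y z x := by
    intro y z x
    have := (hu1 (z - y)).1
    rw [hT]
    positivity
  have hEr0 : ∀ x, 0 ≤ Er x := by
    intro x
    have : 0 ≤ ∑ y ∈ Y, ∑ z ∈ Z, T y z x :=
      Finset.sum_nonneg fun y _ => Finset.sum_nonneg fun z _ => hT0 y z x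
    rw [hEr]
    positivity
  have hsi : Integrable (fun x => ∑ y ∈ Y, ∑ z ∈ Z, T y z x) (iid ν) :=
    integrable_finsetSum _ fun y hy => integrable_finsetSum _ fun z hz => (hTi y hy z hz).1
  have hEri : Integrable Er (iid ν) := hsi.const_mul _
  have hErb : ∫ x, Er x ∂(iid ν) ≤ 4 * w := by
    have e1 : ∫ x, Er x ∂(iid ν) = 1 / MM K ℓ q a b *
        ∑ y ∈ Y, ∑ z ∈ Z, ∫ x, T y z x ∂(iid ν) := by
      rw [hEr]
      simp only
      rw [integral_const_mul, integral_finsetSum _ fun y hy =>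
        integrable_finsetSum _ fun z hz => (hTi y hy z hz).1]
      congr 1
      refine Finset.sum_congr rfl fun y hy => ?_
      rw [integral_finsetSum _ fun z hz => (hTi y hy z hz).1]
    have e2 : ∑ y ∈ Y, ∑ z ∈ Z, ∫ x, T y z x ∂(iid ν) ≤ MM K ℓ q a b * (4 * w) := by
      have : MM K ℓ q a b * (4 * w) = ∑ y ∈ Y, ∑ z ∈ Z, uq K q (z - y) * (4 * w) := by
        unfold MM
        rw [Finset.sum_mul]
        refine Finset.sum_congr rfl fun y _ => ?_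
        rw [Finset.sum_mul]
      rw [this]
      exact Finset.sum_le_sum fun y hy => Finset.sum_le_sum fun z hz => (hTi y hy z hz).2
    rw [e1]
    calc 1 / MM K ℓ q a b * ∑ y ∈ Y, ∑ z ∈ Z, ∫ x, T y z x ∂(iid ν)
        ≤ 1 / MM K ℓ q a b * (MM K ℓ q a b * (4 * w)) :=
          mul_le_mul_of_nonneg_left e2 (by positivity)
      _ = 4 * w := by
          field_simp
  -- the pointwise inequality
  have hcX : ∀ x : ℕ → ℝ, cX ℓ ϑ x a b = H x (a * ℓ) ((b + 1) * ℓ) / 2 + L * ϑ / 2 := by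
    intro x
    unfold cX
    rw [cX_eq ℓ ϑ x a (b + 1) (by omega), hLdef]
    push_cast
    ring
  have hpt : ∀ x : ℕ → ℝ, cX ℓ ϑ x a b - YY K ℓ q x a b ≤ 3 * ϑ + Er x := by
    intro x
    have e1 : YY K ℓ q x a b = 1 / MM K ℓ q a b * ∑ y ∈ Y, ∑ z ∈ Z,
        (uq K q (z - y) * (H x y z / 2) + Sq K q x (z - y) y) := by
      unfold YY
      rw [div_eq_mul_one_div, mul_comm]
    have e2 : cX ℓ ϑ x a b - 3 * ϑ = 1 / MM K ℓ q a b * ∑ y ∈ Y, ∑ z ∈ Z,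
        uq K q (z - y) * (cX ℓ ϑ x a b - 3 * ϑ) := by
      have : ∑ y ∈ Y, ∑ z ∈ Z, uq K q (z - y) * (cX ℓ ϑ x a b - 3 * ϑ) =
          MM K ℓ q a b * (cX ℓ ϑ x a b - 3 * ϑ) := by
        unfold MM
        rw [Finset.sum_mul]
        refine Finset.sum_congr rfl fun y _ => ?_
        rw [Finset.sum_mul]
      rw [this]
      field_simp
    have e3 : cX ℓ ϑ x a b - YY K ℓ q x a b - 3 * ϑ = 1 / MM K ℓ q a b * ∑ y ∈ Y, ∑ z ∈ Z,
        (uq K q (z - y) * (cX ℓ ϑ x a b - 3 * ϑ) -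
          (uq K q (z - y) * (H x y z / 2) + Sq K q x (z - y) y)) := by
      have : cX ℓ ϑ x a b - YY K ℓ q x a b - 3 * ϑ =
          (cX ℓ ϑ x a b - 3 * ϑ) - YY K ℓ q x a b := by ring
      rw [this, e1, e2, ← mul_sub, ← Finset.sum_sub_distrib]
      congr 1
      refine Finset.sum_congr rfl fun y _ => ?_
      rw [← Finset.sum_sub_distrib]
      rw [← e2]
    have e4 : ∑ y ∈ Y, ∑ z ∈ Z, (uq K q (z - y) * (cX ℓ ϑ x a b - 3 * ϑ) -
          (uq K q (z - y) * (H x y z / 2) + Sq K q x (z - y) y)) ≤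
        ∑ y ∈ Y, ∑ z ∈ Z, T y z x := by
      refine Finset.sum_le_sum fun y hy => Finset.sum_le_sum fun z hz => ?_
      obtain ⟨h1, h2, h3, h5, h6, h7, h8⟩ := hyz y hy z hz
      have hH : H x (a * ℓ) ((b + 1) * ℓ) = H x (a * ℓ) y + H x y z + H x z ((b + 1) * ℓ) := by
        rw [H_add x h1 h2, H_add x (h1.trans h2) h3]
      have hu := (hu1 (z - y)).1
      have g1 := hmean (z - y) h7
      have g2 : -|Sq K q x (z - y) y - mS K q ν (z - y)| ≤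
          Sq K q x (z - y) y - mS K q ν (z - y) := neg_abs_le _
      have g3 : uq K q (z - y) / 2 * (H x (a * ℓ) y + H x z ((b + 1) * ℓ)) ≤
          uq K q (z - y) / 2 * (|H x (a * ℓ) y| + |H x z ((b + 1) * ℓ)|) := by
        apply mul_le_mul_of_nonneg_left _ (by linarith)
        have := le_abs_self (H x (a * ℓ) y)
        have := le_abs_self (H x z ((b + 1) * ℓ))
        linarith
      have g4 : cX ℓ ϑ x a b =
          (H x (a * ℓ) y + H x y z + H x z ((b + 1) * ℓ)) / 2 + L * ϑ / 2 := by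
        rw [hcX, hH]
      rw [g4]
      simp only [hT]
      have g5 : uq K q (z - y) * ((H x (a * ℓ) y + H x y z + H x z ((b + 1) * ℓ)) / 2 +
          L * ϑ / 2 - 3 * ϑ) - (uq K q (z - y) * (H x y z / 2) + Sq K q x (z - y) y) =
          uq K q (z - y) / 2 * (H x (a * ℓ) y + H x z ((b + 1) * ℓ)) +
            uq K q (z - y) * (L * ϑ / 2 - 3 * ϑ) - Sq K q x (z - y) y := by ring
      rw [g5]
      linarith
    have e5 : cX ℓ ϑ x a b - YY K ℓ q x a b - 3 * ϑ ≤ Er x := by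
      rw [e3]
      exact mul_le_mul_of_nonneg_left e4 (by positivity)
    linarith
  have hsub : {x : ℕ → ℝ | YY K ℓ q x a b < cX ℓ ϑ x a b - 3 * g} ⊆ {x | 2 * g ≤ Er x} := by
    intro x hx
    have h1 := hpt x
    simp only [Set.mem_ofPred_eq] at hx ⊢
    linarith
  have hmk := mul_meas_ge_le_integral_of_nonneg (μ := iid ν)
    (Filter.Eventually.of_forall hEr0) hEri (2 * g)
  have hmono : (iid ν).real {x : ℕ → ℝ | YY K ℓ q x a b < cX ℓ ϑ x a b - 3 * g} ≤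
      (iid ν).real {x | 2 * g ≤ Er x} := measureReal_mono hsub
  refine hmono.trans ?_
  have h9 : 2 * g * (iid ν).real {x | 2 * g ≤ Er x} ≤ 2 * g * (2 * g) := by
    refine (hmk.trans hErb).trans ?_
    rw [hw]
    linarith [sq_nonneg g]
  have h10 := le_of_mul_le_mul_left h9 (by positivity)
  linarith

end Pool.Agent.H12.EX.YGX
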